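import Mathlib
import Pool.Agent.T9h47.SE.Pair3

/-!
# Random regular graphs and a family of subspaces
-/

set_option autoImplicit false
set_option linter.unusedSectionVars false

namespace Pool.Agent.T9h47.SX

open Finset
open Pool.Agent.T9h47.SC Pool.Agent.T9h47.SE

variable {N k : ℕ} {V : Type} [Fintype V] [DecidableEq V] (blk : Fin N × Bool → V)

/-- for most graphs all subspaces of a small family are separated -/
theorem count_bad (hblk : ∀ v, (univ.filter (fun x => blk x = v)).card = k)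
    (μ : ℕ) (hμ : 0 < μ) (hVμ : Fintype.card V = 2 * μ) {Γ : Type} [Fintype Γ]
    (Z : Γ → Submodule (ZMod 2) (Fin N → ZMod 2)) (s : ℝ) (hs0 : 0 ≤ s)
    (hs : ((∑ g, Nat.card (perp (Z g)) : ℕ) : ℝ) ≤ s) :
    (Nat.card {π : Equiv.Perm (Fin N × Bool) // ¬ ∀ g, Sep2 (RG blk π) (perp (Z g))} : ℝ) *
      2 ^ N ≤ 4 * (2 : ℝ) ^ (29 / 10 * μ : ℝ) * (Real.exp 1 * (2 * (N : ℝ) + 1)) ^ 4 *
        (2 * N).factorial * s := by
  classical
  have hV : 2 ≤ Fintype.card V := by omega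
  have hV0 : 0 < Fintype.card V := by omega
  obtain ⟨P, hP⟩ : ∃ P : Finset ((V → ZMod 2) × (V → ZMod 2)),
      P = univ.filter (fun p => BadP p.1 p.2) := ⟨_, rfl⟩
  obtain ⟨E, hE⟩ : ∃ E : (V → ZMod 2) × (V → ZMod 2) → Γ →
      Finset (Equiv.Perm (Fin N × Bool)), E = fun p g => univ.filter (fun π =>
        tr (RG blk π) p.1 ∈ perp (Z g) ∧ tr (RG blk π) p.2 ∈ perp (Z g)) := ⟨_, rfl⟩
  obtain ⟨c₀, hc₀⟩ : ∃ c₀ : ℝ, c₀ = (Real.exp 1 * (2 * (N : ℝ) + 1)) ^ 4 * (2 * N).factorial :=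
    ⟨_, rfl⟩
  have hc₀0 : 0 ≤ c₀ := by rw [hc₀]; positivity
  obtain ⟨t, ht⟩ : ∃ t : ℝ, t = 29 / 10 * μ := ⟨_, rfl⟩
  have ht0 : 0 ≤ t := by rw [ht]; positivity
  have hgoal : 4 * (2 : ℝ) ^ (29 / 10 * μ : ℝ) * (Real.exp 1 * (2 * (N : ℝ) + 1)) ^ 4 *
        (2 * N).factorial * s = 4 * (2 : ℝ) ^ t * c₀ * s := by
    rw [hc₀, ht]; ring
  rw [hgoal]
  obtain ⟨B, hB⟩ : ∃ B : ℕ, B = Nat.card {π : Equiv.Perm (Fin N × Bool) //
      ¬ ∀ g, Sep2 (RG blk π) (perp (Z g))} := ⟨_, rfl⟩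
  rw [← hB]
  by_cases hsz : (2 : ℝ) ^ ((N : ℝ) - t) ≤ s
  · -- trivial
    have hBle : (B : ℝ) ≤ (2 * N).factorial := by
      have h1 : B ≤ (2 * N).factorial := by
        rw [hB, Nat.card_eq_fintype_card, Fintype.card_subtype]
        refine (card_le_univ _).trans ?_
        rw [Fintype.card_perm, Fintype.card_prod, Fintype.card_fin, Fintype.card_bool, mul_comm]
      exact_mod_cast h1
    have hone : (1 : ℝ) ≤ (Real.exp 1 * (2 * (N : ℝ) + 1)) ^ 4 := by
      apply one_le_pow₀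
      have h2 : (1 : ℝ) ≤ Real.exp 1 := by
        have := Real.add_one_le_exp (1 : ℝ)
        linarith
      have h3 : (1 : ℝ) ≤ 2 * (N : ℝ) + 1 := by
        have : (0 : ℝ) ≤ N := Nat.cast_nonneg N
        linarith
      nlinarith
    have hc₀1 : ((2 * N).factorial : ℝ) ≤ c₀ := by
      rw [hc₀]
      have : (0 : ℝ) ≤ ((2 * N).factorial : ℝ) := Nat.cast_nonneg _
      nlinarith
    have h5 : (2 : ℝ) ^ N ≤ (2 : ℝ) ^ t * s := by
      calc (2 : ℝ) ^ N = (2 : ℝ) ^ (N : ℝ) := (Real.rpow_natCast _ _).symm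
        _ = (2 : ℝ) ^ t * (2 : ℝ) ^ ((N : ℝ) - t) := by
            rw [← Real.rpow_add (by norm_num)]
            congr 1
            ring
        _ ≤ _ := mul_le_mul_of_nonneg_left hsz (by positivity)
    calc (B : ℝ) * 2 ^ N ≤ c₀ * ((2 : ℝ) ^ t * s) :=
          mul_le_mul (hBle.trans hc₀1) h5 (by positivity) hc₀0
      _ ≤ 4 * (c₀ * ((2 : ℝ) ^ t * s)) := by
          have : 0 ≤ c₀ * ((2 : ℝ) ^ t * s) := by positivity
          linarith
      _ = _ := by ring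
  rw [not_le] at hsz
  have hsub : B ≤ (P.biUnion (fun p => (univ : Finset Γ).biUnion (fun g => E p g))).card := by
    rw [hB, Nat.card_eq_fintype_card, Fintype.card_subtype]
    refine card_le_card fun π hπ => ?_
    rw [mem_filter] at hπ
    by_contra hcon
    apply hπ.2
    intro g y z hy hz hbad
    apply hcon
    rw [mem_biUnion]
    refine ⟨(y, z), by rw [hP, mem_filter]; exact ⟨mem_univ _, hbad⟩, ?_⟩
    rw [mem_biUnion]
    refine ⟨g, mem_univ _, ?_⟩
    rw [hE, mem_filter]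
    exact ⟨mem_univ _, hy, hz⟩
  have hEc : ∀ p ∈ P, ∀ g, ((E p g).card : ℝ) * 2 ^ N ≤
      c₀ * (Nat.card (perp (Z g)) : ℕ) * th p.1 p.2 ^ t := by
    intro p hp g
    rw [hP, mem_filter] at hp
    obtain ⟨J, hJN, hJ, h1⟩ := pair_count blk hblk p.1 p.2 hV0 (perp (Z g))
    rw [← hc₀] at h1
    rw [hE]
    refine h1.trans ?_
    apply mul_le_mul_of_nonneg_left _ (by positivity)
    have h2 : (Nat.card (perp (Z g)) : ℝ) ≤ s := by
      refine le_trans ?_ hs
      have h3 : Nat.card (perp (Z g)) ≤ ∑ g, Nat.card (perp (Z g)) :=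
        single_le_sum (f := fun g => Nat.card (perp (Z g))) (fun _ _ => Nat.zero_le _) (mem_univ g)
      exact_mod_cast h3
    rw [hJ] at h2
    have h3 : (2 : ℝ) ^ (J : ℝ) ≤ s := by
      rw [Real.rpow_natCast]
      push_cast at h2
      exact h2
    have h4 : (J : ℝ) < N - t := (Real.rpow_lt_rpow_left_iff (by norm_num : (1 : ℝ) < 2)).1
      (h3.trans_lt hsz)
    have h5 : t ≤ ((N - J : ℕ) : ℝ) := by
      rw [Nat.cast_sub hJN]
      linarith
    rw [← Real.rpow_natCast]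
    rcases (th_nonneg p.1 p.2).eq_or_lt with h6 | h6
    · rw [← h6]
      rcases Nat.eq_zero_or_pos (N - J) with h7 | h7
      · have h8 : t = 0 := by
          rw [h7, Nat.cast_zero] at h5
          linarith
        rw [h7, h8, Nat.cast_zero]
      · rw [Real.zero_rpow (by exact_mod_cast h7.ne')]
        positivity
    · exact Real.rpow_le_rpow_of_exponent_ge h6 (th_one p.1 p.2 hp.2 hV0) h5
  have hth := sum_th μ hμ hVμ P (fun p hp => by rw [hP, mem_filter] at hp; exact hp.2)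
  rw [← ht] at hth
  have h1 : ((P.biUnion (fun p => (univ : Finset Γ).biUnion (fun g => E p g))).card : ℝ) ≤
      ∑ p ∈ P, ∑ g, ((E p g).card : ℝ) := by
    have h2 : (P.biUnion (fun p => (univ : Finset Γ).biUnion (fun g => E p g))).card ≤
        ∑ p ∈ P, ∑ g, (E p g).card :=
      card_biUnion_le.trans (sum_le_sum fun p _ => card_biUnion_le)
    exact_mod_cast h2
  calc (B : ℝ) * 2 ^ N ≤
        ((P.biUnion (fun p => (univ : Finset Γ).biUnion (fun g => E p g))).card : ℝ) * 2 ^ N :=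
        mul_le_mul_of_nonneg_right (by exact_mod_cast hsub) (by positivity)
    _ ≤ (∑ p ∈ P, ∑ g, ((E p g).card : ℝ)) * 2 ^ N :=
        mul_le_mul_of_nonneg_right h1 (by positivity)
    _ = ∑ p ∈ P, ∑ g, ((E p g).card : ℝ) * 2 ^ N := by
        rw [sum_mul]
        exact sum_congr rfl fun p _ => sum_mul _ _ _
    _ ≤ ∑ p ∈ P, ∑ g, c₀ * (Nat.card (perp (Z g)) : ℕ) * th p.1 p.2 ^ t :=
        sum_le_sum fun p hp => sum_le_sum fun g _ => hEc p hp g
    _ = ∑ p ∈ P, (c₀ * ((∑ g, Nat.card (perp (Z g)) : ℕ) : ℝ)) * th p.1 p.2 ^ t := by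
        refine sum_congr rfl fun p _ => ?_
        rw [← sum_mul, ← mul_sum]
        push_cast
        rfl
    _ = (c₀ * ((∑ g, Nat.card (perp (Z g)) : ℕ) : ℝ)) * ∑ p ∈ P, th p.1 p.2 ^ t :=
        (mul_sum _ _ _).symm
    _ ≤ (c₀ * s) * (4 * (2 : ℝ) ^ t) := by
        apply mul_le_mul (mul_le_mul_of_nonneg_left hs hc₀0) hth _ (by positivity)
        exact sum_nonneg fun p _ => Real.rpow_nonneg (th_nonneg _ _) _
    _ = _ := by ring

end Pool.Agent.T9h47.SX
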