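import Mathlib
import Pool.Agent.T9h47.SE.SatDef

/-!
# Negations of variables and views of gates: definitions
-/

set_option autoImplicit false

namespace Pool.Agent.T9h47.SX

open Pool.Agent.T9h47.SC Pool.Agent.T9h47.SE

/-- Negate the variables `i` with `f i = 1` in all clauses of `φ`. -/
def negVars {n k : ℕ} (f : Fin n → ZMod 2) (φ : Set (Cl n k)) : Set (Cl n k) := ren 1 f '' φ

/-- What the gate `g` sees on the input `x`: its own value and, for each role `r`, the multiset of
the values of its children in the role `r`. -/
noncomputable def view {K I : Type} (C : Circuit K I) (g : C.Gate) (x : I → K) :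
    K × (ℕ → Multiset K) :=
  (C.val x g, fun r => ((C.kids g).filter (fun p => p.1 = r)).val.map (fun p => C.val x p.2))

end Pool.Agent.T9h47.SX
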