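import Mathlib
import Pool.Agent.T9h47.SX.View

/-!
# How much a circuit breaks a group of negations: definitions
-/

set_option autoImplicit false

namespace Pool.Agent.T9h47.SX

open Pool.Agent.T9h47.SC Pool.Agent.T9h47.SE

/-- The views of the gates of `C` after negating variables: all functions `φ ↦ view g (f φ)` on the
sets `φ` of at most `m` clauses, where `g` is a gate and `f` is in the group `G` of negations. -/
def views {K : Type} {n k : ℕ} (G : AddSubgroup (Fin n → ZMod 2)) (C : Circuit K (Cl n k))
    (b₀ b₁ : K) (m : ℕ) : Set ({φ : Set (Cl n k) // φ.ncard ≤ m} → K × (ℕ → Multiset K)) :=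
  {L | ∃ g, ∃ f ∈ G, L = fun φ => view C g (inp b₀ b₁ (negVars f φ.1))}

/-- The circuit is symmetric under the group `G` of negations: each element of `G` extends to an
automorphism. -/
def Symm {K : Type} {n k : ℕ} (C : Circuit K (Cl n k)) (G : AddSubgroup (Fin n → ZMod 2)) : Prop :=
  ∀ f ∈ G, ∃ α, C.IsAut (ren 1 f) α

end Pool.Agent.T9h47.SX
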