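import Mathlib
import Pool.Agent.T9h47.SE.Pair3

/-!
# Values of gates and subspaces, without symmetry of the circuit
-/

set_option autoImplicit false
set_option linter.unusedSectionVars false

namespace Pool.Agent.T9h47.SX

open Finset
open Pool.Agent.T9h47.SC Pool.Agent.T9h47.SE

variable {N : ℕ} {V : Type} [Fintype V] [DecidableEq V] (R : V → Finset (Fin N))

theorem perp_anti {Z Z' : Submodule (ZMod 2) (Fin N → ZMod 2)} (h : Z' ≤ Z) :
    perp Z ≤ perp Z' := by
  intro y hy
  rw [mem_perp] at hy ⊢
  intro s hs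
  exact hy s (h hs)

theorem good_mono {Z Z' : Submodule (ZMod 2) (Fin N → ZMod 2)} (h : Z' ≤ Z)
    {c : V → ZMod 2} (hc : Good R Z' c) : Good R Z c :=
  fun y hy => hc y (perp_anti h hy)

/-- two good right hand sides differ by a gauge transformation -/
theorem good_diff {Z : Submodule (ZMod 2) (Fin N → ZMod 2)} {c c' : V → ZMod 2}
    (hc : Good R Z c) (hc' : Good R Z c') : ∃ t ∈ Z, c' = c + AA R t := by
  have h1 : c + c' ∈ Z.map (AA R) := by
    apply mem_of_dual
    intro y hy
    have hy1 : tr R y ∈ perp Z := by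
      intro f hf
      rw [← adj]
      exact hy _ (Submodule.mem_map_of_mem hf)
    rw [dot_add, hc y hy1, hc' y hy1, z2_self]
  obtain ⟨t, ht, h2⟩ := h1
  refine ⟨t, ht, ?_⟩
  have h3 : AA R t = c + c' := h2
  rw [h3, ← add_assoc, vec_self, zero_add]

variable {K I : Type} (C : Circuit K I)

/-- **The induction**: if the functions computed by the gates do not change under `Z g` and the
subspaces `Z' g`, which leave the functions of `g` and its children invariant, are separated, then
the values at good right hand sides are the values at zero. -/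
theorem same_val_sem (hone : tr R (fun _ => 1) = 0) (x : (V → ZMod 2) → I → K)
    (Z Z' : C.Gate → Submodule (ZMod 2) (Fin N → ZMod 2))
    (hZ : ∀ g, ∀ t ∈ Z g, ∀ c, C.val (x (c + AA R t)) g = C.val (x c) g)
    (hZZ : ∀ g, Z' g ≤ Z g) (hk : ∀ g, ∀ p ∈ C.kids g, Z' g ≤ Z p.2)
    (hin : ∀ g i, C.lab g = Sum.inl i → ∀ c, Good R (Z g) c → x c i = x 0 i)
    (hSep : ∀ g, Sep2 R (perp (Z' g))) :
    ∀ (m : ℕ) (g : C.Gate), C.rank g < m → ∀ c, Good R (Z g) c →
      C.val (x c) g = C.val (x 0) g := by
  intro m
  induction m with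
  | zero => intro g hg; exact absurd hg (Nat.not_lt_zero _)
  | succ m ih =>
    intro g hg c hc
    rcases hl : C.lab g with i | f
    · have h1 := C.val_inl (x c) g i hl
      have h2 := C.val_inl (x 0) g i hl
      rw [h1, h2]
      exact hin g i hl c hc
    · obtain ⟨c', hc'⟩ := exists_good2 R hone (Z' g) (hSep g)
      obtain ⟨t, ht, rfl⟩ := good_diff R hc (good_mono R (hZZ g) hc')
      rw [← hZ g t ht c]
      have h1 := C.val_inr (x (c + AA R t)) g f hl
      have h2 := C.val_inr (x 0) g f hl
      rw [h1, h2]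
      congr 1
      funext r
      refine Multiset.map_congr rfl ?_
      intro p hp
      have hp' : (show ℕ × C.Gate from p) ∈ (C.kids g).filter (fun p => p.1 = r) := hp
      have hp2 : (show ℕ × C.Gate from p) ∈ C.kids g := (mem_filter.1 hp').1
      exact ih p.2 (lt_of_lt_of_le (C.rank_lt g p hp2) (Nat.lt_succ_iff.1 hg)) _
        (good_mono R (hk g p hp2) hc')

end Pool.Agent.T9h47.SX
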