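import Mathlib
import Pool.Agent.T9h47.SX.Sem

/-!
# The induction for multisets of values
-/

set_option autoImplicit false
set_option linter.unusedSectionVars false

namespace Pool.Agent.T9h47.SX

open Finset
open Pool.Agent.T9h47.SC Pool.Agent.T9h47.SE

variable {N : ℕ} {V : Type} [Fintype V] [DecidableEq V] (R : V → Finset (Fin N))
variable {K I : Type} (C : Circuit K I)

/-- the children of a gate in a role -/
def kidsR (g : C.Gate) (r : ℕ) : Finset (ℕ × C.Gate) := (C.kids g).filter (fun p => p.1 = r)

/-- the values of the children of a gate -/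
noncomputable def vals (g : C.Gate) (x : I → K) (r : ℕ) : Multiset K :=
  ((C.kids g).filter (fun p => p.1 = r)).val.map (fun p => C.val x p.2)

/-- **The induction**. The group `G` acts on the right hand sides through `res`, the subgroup `S g`
does not change the multisets of the values of the children of `g`. -/
theorem same_val_multi (hone : tr R (fun _ => 1) = 0) {G : Type} [AddCommGroup G] [Fintype G]
    (res : G → (Fin N → ZMod 2)) (y : G → (V → ZMod 2) → I → K)
    (hy : ∀ f f' c, y (f + f') c = y f (c + AA R (res f')))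
    (S : C.Gate → AddSubgroup G) (Z : C.Gate → Submodule (ZMod 2) (Fin N → ZMod 2))
    (hZ : ∀ g, ∀ t ∈ Z g, ∃ f ∈ S g, res f = t)
    (hS : ∀ g, ∀ f ∈ S g, ∀ f₁ c r, vals C g (y (f + f₁) c) r = vals C g (y f₁ c) r)
    (hin : ∀ g i, C.lab g = Sum.inl i → ∀ f₁ c, Good R (Z g) c → y f₁ c i = y f₁ 0 i)
    (hSep : ∀ g, Sep2 R (perp (Z g))) :
    ∀ (m : ℕ) (g : C.Gate), C.rank g < m → ∀ f₁ c, Good R (Z g) c →
      C.val (y f₁ c) g = C.val (y f₁ 0) g := by
  classical
  intro m
  induction m with
  | zero => intro g hg; exact absurd hg (Nat.not_lt_zero _)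
  | succ m ih =>
    intro g hg f₁ c hc
    rcases hl : C.lab g with i | op
    · have h1 := C.val_inl (y f₁ c) g i hl
      have h2 := C.val_inl (y f₁ 0) g i hl
      rw [h1, h2]
      exact hin g i hl f₁ c hc
    · have h1 := C.val_inr (y f₁ c) g op hl
      have h2 := C.val_inr (y f₁ 0) g op hl
      rw [h1, h2]
      congr 1
      funext r
      show vals C g (y f₁ c) r = vals C g (y f₁ 0) r
      -- count a value
      ext v
      obtain ⟨T, hT⟩ : ∃ T : Finset (ℕ × C.Gate), T = (C.kids g).filter (fun p => p.1 = r) :=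
        ⟨_, rfl⟩
      have hcount : ∀ x : I → K, (vals C g x r).count v =
          ∑ p ∈ T, if C.val x p.2 = v then 1 else 0 := by
        intro x
        unfold vals
        rw [← hT, Multiset.count_map, ← card_filter]
        rw [← Multiset.filter_congr (p := fun p : ℕ × C.Gate => C.val x p.2 = v) (by
          intro p _
          exact eq_comm)]
        rfl
      have hsum : ∀ c' : V → ZMod 2, Fintype.card (S g) * (vals C g (y f₁ c') r).count v =
          ∑ p ∈ T, ∑ f : S g, if C.val (y (f.1 + f₁) c') p.2 = v then 1 else 0 := by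
        intro c'
        rw [sum_comm]
        have h3 : ∀ f : S g, (∑ p ∈ T, if C.val (y (f.1 + f₁) c') p.2 = v then 1 else 0) =
            (vals C g (y f₁ c') r).count v := by
          intro f
          rw [← hcount, hS g f.1 f.2]
        rw [sum_congr rfl (fun f _ => h3 f), sum_const, card_univ, smul_eq_mul]
      have hkey : ∀ p ∈ T, (∑ f : S g, if C.val (y (f.1 + f₁) c) p.2 = v then 1 else 0) =
          ∑ f : S g, if C.val (y (f.1 + f₁) 0) p.2 = v then 1 else 0 := by
        intro p hp
        have hp2 : p ∈ C.kids g := by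
          rw [hT] at hp
          exact (mem_filter.1 hp).1
        obtain ⟨t, ht, hgood⟩ := good_inter2 R hone (hSep p.2) hc
        obtain ⟨f₀, hf₀, rfl⟩ := hZ g t ht
        have hrk : C.rank p.2 < m := lt_of_lt_of_le (C.rank_lt g p hp2) (Nat.lt_succ_iff.1 hg)
        have h4 : ∀ f, C.val (y f c) p.2 = C.val (y (f + f₀) 0) p.2 := by
          intro f
          have h5 : y f c = y (f + f₀) (c + AA R (res f₀)) := by
            rw [hy, add_assoc, vec_self, add_zero]
          rw [h5]
          exact ih p.2 hrk (f + f₀) _ hgood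
        have h6 : ∀ f : S g, (if C.val (y (f.1 + f₁) c) p.2 = v then 1 else 0) =
            (if C.val (y ((f + ⟨f₀, hf₀⟩ : S g).1 + f₁) 0) p.2 = v then 1 else 0) := by
          intro f
          rw [h4]
          have h7 : f.1 + f₁ + f₀ = (f + ⟨f₀, hf₀⟩ : S g).1 + f₁ := by
            show f.1 + f₁ + f₀ = f.1 + f₀ + f₁
            abel
          rw [h7]
        rw [sum_congr rfl (fun f _ => h6 f)]
        exact Equiv.sum_comp (Equiv.addRight (⟨f₀, hf₀⟩ : S g))
          (fun f => if C.val (y (f.1 + f₁) 0) p.2 = v then 1 else 0)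
      have h8 : Fintype.card (S g) * (vals C g (y f₁ c) r).count v =
          Fintype.card (S g) * (vals C g (y f₁ 0) r).count v := by
        rw [hsum, hsum]
        exact sum_congr rfl hkey
      exact Nat.eq_of_mul_eq_mul_left Fintype.card_pos h8

end Pool.Agent.T9h47.SX
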