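import Mathlib
import Pool.Agent.T9h47.SE.Pair4
import Pool.Agent.T9h47.SX.Defs
import Pool.Agent.T9h47.SX.Count
import Pool.Agent.T9h47.SX.Multi

/-!
# Views of gates and negations of variables
-/

set_option autoImplicit false
set_option linter.unusedSectionVars false

namespace Pool.Agent.T9h47.SX

open Finset
open Pool.Agent.T9h47.SC Pool.Agent.T9h47.SE

section neg

variable {n k : ℕ}

theorem negVars_add (f f' : Fin n → ZMod 2) (φ : Set (Cl n k)) :
    negVars (f + f') φ = negVars f (negVars f' φ) := by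
  unfold negVars
  rw [← ren_flip_flip, Set.image_comp]

theorem negVars_zero (φ : Set (Cl n k)) : negVars (0 : Fin n → ZMod 2) φ = φ := by
  unfold negVars
  rw [ren_one, Set.image_id]

theorem ren_ren_self (f : Fin n → ZMod 2) (D : Cl n k) : ren 1 f (ren 1 f D) = D :=
  congrFun (ren_flip_self f) D

theorem negVars_ncard (f : Fin n → ZMod 2) (φ : Set (Cl n k)) :
    (negVars f φ).ncard = φ.ncard := by
  apply Set.ncard_image_of_injective
  intro D D' h
  have h1 := congrArg (ren 1 f) h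
  rwa [ren_ren_self, ren_ren_self] at h1

theorem mem_negVars (f : Fin n → ZMod 2) (φ : Set (Cl n k)) (D : Cl n k) :
    D ∈ negVars f φ ↔ ren 1 f D ∈ φ := by
  constructor
  · rintro ⟨E, hE, rfl⟩
    rwa [ren_ren_self]
  · intro h
    exact ⟨_, h, ren_ren_self f D⟩

variable {m : ℕ}

/-- negating variables in small instances -/
def sh (f : Fin n → ZMod 2) (φ : {φ : Set (Cl n k) // φ.ncard ≤ m}) :
    {φ : Set (Cl n k) // φ.ncard ≤ m} :=
  ⟨negVars f φ.1, (negVars_ncard f φ.1).trans_le φ.2⟩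

theorem sh_add (f f' : Fin n → ZMod 2) :
    (sh (f + f') : {φ : Set (Cl n k) // φ.ncard ≤ m} → _) = sh f ∘ sh f' := by
  funext φ
  apply Subtype.ext
  exact negVars_add f f' φ.1

theorem sh_zero : (sh (0 : Fin n → ZMod 2) : {φ : Set (Cl n k) // φ.ncard ≤ m} → _) = id := by
  funext φ
  apply Subtype.ext
  exact negVars_zero φ.1

theorem sh_self (f : Fin n → ZMod 2) :
    (sh f : {φ : Set (Cl n k) // φ.ncard ≤ m} → _) ∘ sh f = id := by
  rw [← sh_add, vec_self, sh_zero]

theorem sh_comm (f f' : Fin n → ZMod 2) :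
    (sh f : {φ : Set (Cl n k) // φ.ncard ≤ m} → _) ∘ sh f' = sh f' ∘ sh f := by
  rw [← sh_add, ← sh_add, add_comm]

end neg

section stab

variable {n k m N : ℕ} {T : Type} (G : AddSubgroup (Fin n → ZMod 2)) (e : Fin N ↪ Fin n)

/-- the negations of the chosen variables which extend to an element of `G` that does not change
the function -/
def ZL (L : {φ : Set (Cl n k) // φ.ncard ≤ m} → T) : Submodule (ZMod 2) (Fin N → ZMod 2) where
  carrier := {t | ∃ f ∈ G, (fun v => f (e v)) = t ∧ L ∘ sh f = L}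
  zero_mem' := ⟨0, G.zero_mem, rfl, by rw [sh_zero, Function.comp_id]⟩
  add_mem' := by
    rintro t t' ⟨f, hf, rfl, h⟩ ⟨f', hf', rfl, h'⟩
    refine ⟨f + f', G.add_mem hf hf', rfl, ?_⟩
    rw [sh_add, ← Function.comp_assoc, h, h']
  smul_mem' := by
    rintro c t ⟨f, hf, rfl, h⟩
    rcases z2_cases c with rfl | rfl
    · exact ⟨0, G.zero_mem, by rw [zero_smul]; rfl, by rw [sh_zero, Function.comp_id]⟩
    · exact ⟨f, hf, by rw [one_smul], h⟩

theorem mem_ZL {L : {φ : Set (Cl n k) // φ.ncard ≤ m} → T} {t : Fin N → ZMod 2} :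
    t ∈ ZL G e L ↔ ∃ f ∈ G, (fun v => f (e v)) = t ∧ L ∘ sh f = L := Iff.rfl

theorem ZL_sh (L : {φ : Set (Cl n k) // φ.ncard ≤ m} → T) (f : Fin n → ZMod 2) :
    ZL G e (L ∘ sh f) = ZL G e L := by
  have key : ∀ (L : {φ : Set (Cl n k) // φ.ncard ≤ m} → T) (f : Fin n → ZMod 2),
      ZL G e L ≤ ZL G e (L ∘ sh f) := by
    intro L f t ht
    rw [mem_ZL] at ht ⊢
    obtain ⟨f', hf', h1, h2⟩ := ht
    refine ⟨f', hf', h1, ?_⟩
    rw [Function.comp_assoc, sh_comm, ← Function.comp_assoc, h2]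
  refine le_antisymm ?_ (key L f)
  have h := key (L ∘ sh f) f
  rwa [Function.comp_assoc, sh_self, Function.comp_id] at h

theorem card_ZL (hlift : ∀ t : Fin N → ZMod 2, ∃ f ∈ G, (fun v => f (e v)) = t)
    [DecidableEq ({φ : Set (Cl n k) // φ.ncard ≤ m} → T)]
    (F : Finset ({φ : Set (Cl n k) // φ.ncard ≤ m} → T))
    (hF : ∀ L ∈ F, ∀ f ∈ G, L ∘ sh f ∈ F) (L : {φ : Set (Cl n k) // φ.ncard ≤ m} → T)
    (hL : L ∈ F) :
    Nat.card (perp (ZL G e L)) ≤ (open Classical in
      (F.filter (fun L' => ZL G e L' = ZL G e L)).card) := by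
  classical
  choose lf hlf1 hlf2 using hlift
  have hZpos : 0 < Nat.card (ZL G e L) := Nat.card_pos
  have h1 : Fintype.card (Fin N → ZMod 2) ≤
      (F.filter (fun L' => ZL G e L' = ZL G e L)).card * Nat.card (ZL G e L) := by
    have h2 := card_le_mul_card_image_of_maps_to (s := (univ : Finset (Fin N → ZMod 2)))
      (t := F.filter (fun L' => ZL G e L' = ZL G e L))
      (f := fun t => L ∘ sh (lf t)) (by
        intro t _
        rw [mem_filter]
        exact ⟨hF L hL _ (hlf1 t), ZL_sh G e L (lf t)⟩) (Nat.card (ZL G e L)) (by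
        intro L' _
        by_cases hne : (univ.filter (fun t => L ∘ sh (lf t) = L')).Nonempty
        · obtain ⟨t₀, ht₀⟩ := hne
          rw [mem_filter] at ht₀
          have h5 : (univ.filter (fun t => L ∘ sh (lf t) = L')).card =
              Nat.card (univ.filter (fun t => L ∘ sh (lf t) = L')) := by
            rw [Nat.card_eq_fintype_card, Fintype.card_coe]
          rw [h5]
          refine Nat.card_le_card_of_injective
            (fun t => (⟨t.1 + t₀, lf t.1 + lf t₀, G.add_mem (hlf1 _) (hlf1 _), ?_, ?_⟩ :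
              ZL G e L)) ?_
          · rw [← hlf2 t.1, ← hlf2 t₀]
            rw [hlf2 t.1, hlf2 t₀]
            funext v
            show lf t.1 (e v) + lf t₀ (e v) = t.1 v + t₀ v
            rw [← congrFun (hlf2 t.1) v, ← congrFun (hlf2 t₀) v]
          · have h6 := (mem_filter.1 t.2).2
            rw [sh_add, ← Function.comp_assoc, h6, ← ht₀.2, Function.comp_assoc, sh_self,
              Function.comp_id]
          · intro t t' htt
            have h6 : t.1 + t₀ = t'.1 + t₀ := congrArg Subtype.val htt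
            exact Subtype.ext (add_right_cancel h6)
        · rw [not_nonempty_iff_eq_empty] at hne
          rw [hne, card_empty]
          exact Nat.zero_le _)
    rw [card_univ] at h2
    rw [mul_comm]
    exact h2
  have h3 := card_perp (ZL G e L)
  have h4 : Fintype.card (Fin N → ZMod 2) = 2 ^ Fintype.card (Fin N) := by
    rw [Fintype.card_fun, ZMod.card]
  rw [← h4] at h3
  exact Nat.le_of_mul_le_mul_right (h3.trans h1) hZpos

theorem sum_ZL (hlift : ∀ t : Fin N → ZMod 2, ∃ f ∈ G, (fun v => f (e v)) = t)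
    [DecidableEq ({φ : Set (Cl n k) // φ.ncard ≤ m} → T)]
    (F : Finset ({φ : Set (Cl n k) // φ.ncard ≤ m} → T))
    (hF : ∀ L ∈ F, ∀ f ∈ G, L ∘ sh f ∈ F) :
    (open Classical in (∑ Z ∈ F.image (ZL G e), Nat.card (perp Z))) ≤ F.card := by
  classical
  rw [card_eq_sum_card_image (ZL G e) F]
  refine sum_le_sum fun Z hZ => ?_
  rw [mem_image] at hZ
  obtain ⟨L, hL, rfl⟩ := hZ
  exact card_ZL G e hlift F hF L hL

end stab

section circ

variable {n k m N : ℕ} {V : Type} [Fintype V] [DecidableEq V] {K : Type}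
  (G : AddSubgroup (Fin n → ZMod 2)) (e : Fin N ↪ Fin n) (C : Circuit K (Cl n k)) (b₀ b₁ : K)

/-- the view of a gate on small instances -/
noncomputable def vw (g : C.Gate) (φ : {φ : Set (Cl n k) // φ.ncard ≤ m}) :
    K × (ℕ → Multiset K) := view C g (inp b₀ b₁ φ.1)

theorem views_eq : views G C b₀ b₁ m = {L | ∃ g, ∃ f ∈ G, L = vw C b₀ b₁ g ∘ sh f} := rfl

/-- the elements of `G` which do not change the view of a gate -/
def Sg (m : ℕ) (g : C.Gate) : AddSubgroup G where
  carrier := {f | (vw C b₀ b₁ g : {φ : Set (Cl n k) // φ.ncard ≤ m} → _) ∘ sh f.1 = vw C b₀ b₁ g}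
  zero_mem' := by
    show vw C b₀ b₁ g ∘ sh (0 : Fin n → ZMod 2) = vw C b₀ b₁ g
    rw [sh_zero, Function.comp_id]
  add_mem' := by
    intro f f' h h'
    show vw C b₀ b₁ g ∘ sh (f.1 + f'.1) = vw C b₀ b₁ g
    have h1 : vw C b₀ b₁ g ∘ sh f.1 = vw C b₀ b₁ g := h
    have h2 : vw C b₀ b₁ g ∘ sh f'.1 = vw C b₀ b₁ g := h'
    rw [sh_add, ← Function.comp_assoc, h1, h2]
  neg_mem' := by
    intro f h
    show vw C b₀ b₁ g ∘ sh (-f.1) = vw C b₀ b₁ g
    have h1 : -f.1 = f.1 := by
      funext i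
      show -(f.1 i) = f.1 i
      have : ∀ a : ZMod 2, -a = a := by decide
      exact this _
    rw [h1]
    exact h

theorem ren_emb_res (f : Fin n → ZMod 2) (E : Cl N k) :
    ren 1 f (emb e E) = emb e (ren 1 (fun v => f (e v)) E) := by
  apply Subtype.ext
  show (E.1.image _).image _ = (E.1.image _).image _
  rw [image_image, image_image]
  refine image_congr ?_
  intro l _
  rfl

theorem negVars_sys (R : V → Finset (Fin N)) (hR : ∀ j, (R j).card ≤ k) (f : Fin n → ZMod 2)
    (c : V → ZMod 2) : negVars f (emb e '' sys R hR c : Set (Cl n k)) =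
      emb e '' sys R hR (c + AA R (fun v => f (e v))) := by
  ext D
  rw [mem_negVars]
  constructor
  · rintro ⟨E, hE, hED⟩
    refine ⟨ren 1 (fun v => f (e v)) E, (ren_sys R hR _ c E).2 hE, ?_⟩
    rw [← ren_emb_res, hED, ren_ren_self]
  · rintro ⟨E, hE, rfl⟩
    rw [ren_emb_res]
    refine ⟨_, ?_, rfl⟩
    rw [← ren_sys R hR (fun v => f (e v)), ren_ren_self]
    exact hE

/-- the instances -/
noncomputable def ys (R : V → Finset (Fin N)) (hR : ∀ j, (R j).card ≤ k) (f : G)
    (c : V → ZMod 2) (D : Cl n k) : K :=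
  inp b₀ b₁ (negVars f.1 (emb e '' sys R hR c)) D

theorem ys_add (R : V → Finset (Fin N)) (hR : ∀ j, (R j).card ≤ k) (f f' : G)
    (c : V → ZMod 2) : ys G e b₀ b₁ R hR (f + f') c =
      ys G e b₀ b₁ R hR f (c + AA R (fun v => f'.1 (e v))) := by
  funext D
  unfold ys
  have h : (f + f').1 = f.1 + f'.1 := rfl
  rw [h, negVars_add, negVars_sys]

/-- the values for good right hand sides -/
theorem val_ys (R : V → Finset (Fin N)) (hR : ∀ j, (R j).card ≤ k)
    (hone : tr R (fun _ => 1) = 0) (hV : 2 ≤ Fintype.card V) (hm : 1 ≤ m)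
    (hsm : ∀ c, (emb e '' sys R hR c : Set (Cl n k)).ncard ≤ m)
    (hSep : ∀ g, Sep2 R (perp (ZL G e (vw C b₀ b₁ g :
      {φ : Set (Cl n k) // φ.ncard ≤ m} → _)))) (g : C.Gate) (f₁ : G) (c : V → ZMod 2)
    (hc : Good R (ZL G e (vw C b₀ b₁ g : {φ : Set (Cl n k) // φ.ncard ≤ m} → _)) c) :
    C.val (ys G e b₀ b₁ R hR f₁ c) g = C.val (ys G e b₀ b₁ R hR f₁ 0) g := by
  classical
  have hG : Finite G := inferInstance
  let _ : Fintype G := Fintype.ofFinite G
  refine same_val_multi R C hone (fun (f : G) v => f.1 (e v)) (ys G e b₀ b₁ R hR)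
    (ys_add G e b₀ b₁ R hR) (Sg G C b₀ b₁ m) (fun g => ZL G e (vw C b₀ b₁ g))
    ?_ ?_ ?_ hSep (C.rank g + 1) g (Nat.lt_succ_self _) f₁ c hc
  · intro g t ht
    obtain ⟨f, hf, h1, h2⟩ := (mem_ZL G e).1 ht
    exact ⟨⟨f, hf⟩, h2, h1⟩
  · intro g f hf f₁ c r
    have h1 : (vw C b₀ b₁ g : {φ : Set (Cl n k) // φ.ncard ≤ m} → _) ∘ sh f.1 = vw C b₀ b₁ g := hf
    have h2 := congrFun h1 ⟨negVars f₁.1 (emb e '' sys R hR c),
      (negVars_ncard _ _).trans_le (hsm c)⟩
    have h3 := congrFun (congrArg Prod.snd h2) r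
    show vals C g (inp b₀ b₁ (negVars (f.1 + f₁.1) (emb e '' sys R hR c))) r =
      vals C g (inp b₀ b₁ (negVars f₁.1 (emb e '' sys R hR c))) r
    rw [negVars_add]
    exact h3
  · intro g D hl f₁ c hg
    by_contra hne
    -- the clause, moved back
    obtain ⟨D', hD'⟩ : ∃ D', D' = ren 1 f₁.1 D := ⟨_, rfl⟩
    have hb : b₀ ≠ b₁ := by
      intro hb
      apply hne
      show inp b₀ b₁ _ D = inp b₀ b₁ _ D
      unfold inp
      rw [hb, ite_self, ite_self]
    have hys : ∀ c, ys G e b₀ b₁ R hR f₁ c D = inp b₀ b₁ (emb e '' sys R hR c) D' := by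
      intro c
      show inp b₀ b₁ _ D = inp b₀ b₁ _ D'
      unfold inp
      by_cases h : D' ∈ (emb e '' sys R hR c : Set (Cl n k))
      · rw [if_pos h, if_pos]
        rw [mem_negVars, ← hD']
        exact h
      · rw [if_neg h, if_neg]
        rw [mem_negVars, ← hD']
        exact h
    rw [hys, hys] at hne
    obtain ⟨E, hE⟩ : ∃ E, emb e E = D' := by
      by_contra hcon
      apply hne
      unfold inp
      rw [if_neg, if_neg]
      · rintro ⟨E, _, hE⟩
        exact hcon ⟨E, hE⟩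
      · rintro ⟨E, _, hE⟩
        exact hcon ⟨E, hE⟩
    have hinpE : ∀ c, inp b₀ b₁ (emb e '' sys R hR c) D' = inp b₀ b₁ (sys R hR c) E := by
      intro c
      unfold inp
      have hiff : D' ∈ (emb e '' sys R hR c : Set (Cl n k)) ↔ E ∈ sys R hR c := by
        rw [← hE]
        exact (emb_inj e).mem_set_image
      by_cases h : E ∈ sys R hR c
      · rw [if_pos h, if_pos (hiff.2 h)]
      · rw [if_neg h, if_neg (fun h' => h (hiff.1 h'))]
    rw [hinpE, hinpE] at hne
    obtain ⟨j, hcj, hj⟩ := (sat_gauge R hR b₀ b₁).loc c E hne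
    apply hcj
    have h1 : tr R (Pi.single j 1) ∈ perp (ZL G e (vw C b₀ b₁ g :
        {φ : Set (Cl n k) // φ.ncard ≤ m} → _)) := by
      intro t ht
      obtain ⟨f, hf, h2, h3⟩ := (mem_ZL G e).1 ht
      -- the clause is fixed
      have h4 : ren 1 f D = D := by
        have h5 := congrFun h3 ⟨{D}, by rw [Set.ncard_singleton]; exact hm⟩
        have h6 : C.val (inp b₀ b₁ (negVars f {D})) g = C.val (inp b₀ b₁ ({D} : Set (Cl n k))) g :=
          congrArg Prod.fst h5
        rw [C.val_inl _ g D hl, C.val_inl _ g D hl] at h6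
        unfold inp at h6
        rw [if_pos (Set.mem_singleton D)] at h6
        by_contra hcon
        rw [if_neg] at h6
        · exact hb h6
        · rw [mem_negVars]
          exact hcon
      have h5 : ren 1 t E = E := by
        apply emb_inj e
        have h6 := ren_emb_res e f E
        rw [h2] at h6
        rw [← h6, hE, hD']
        have h7 : ren 1 f (ren 1 f₁.1 D) = ren 1 f₁.1 (ren 1 f D) := by
          have h8 := congrFun (ren_flip_flip (k := k) f f₁.1) D
          have h9 := congrFun (ren_flip_flip (k := k) f₁.1 f) D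
          rw [add_comm] at h9
          exact h8.trans h9.symm
        rw [h7, h4]
      rw [← adj, dot_single, AA_apply]
      exact hj t h5
    have h2 := hg _ h1
    rw [dot_single] at h2
    rw [h2]
    unfold phi
    rw [wt_single, if_pos (by omega)]

/-- for good graphs the numbers of accepted instances are equal -/
theorem card_ys (hlift : ∀ t : Fin N → ZMod 2, ∃ f ∈ G, (fun v => f (e v)) = t)
    (R : V → Finset (Fin N)) (hR : ∀ j, (R j).card ≤ k)
    (hone : tr R (fun _ => 1) = 0) (hV : 2 ≤ Fintype.card V) (hm : 1 ≤ m)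
    (hsm : ∀ c, (emb e '' sys R hR c : Set (Cl n k)).ncard ≤ m)
    (hSep : ∀ g, Sep2 R (perp (ZL G e (vw C b₀ b₁ g :
      {φ : Set (Cl n k) // φ.ncard ≤ m} → _)))) (Acc : Set K) (c : V → ZMod 2)
    (hc : Good R ⊤ c) :
    Nat.card {f : G // C.val (ys G e b₀ b₁ R hR f c) C.out ∈ Acc} =
      Nat.card {f : G // C.val (ys G e b₀ b₁ R hR f 0) C.out ∈ Acc} := by
  obtain ⟨c', hc'⟩ := exists_good2 R hone _ (hSep C.out)
  obtain ⟨t, _, ht⟩ := good_diff R hc (good_mono R le_top hc')
  obtain ⟨f₀, hf₀, hft⟩ := hlift t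
  have h1 : ∀ f : G, C.val (ys G e b₀ b₁ R hR f c) C.out =
      C.val (ys G e b₀ b₁ R hR (f + ⟨f₀, hf₀⟩) 0) C.out := by
    intro f
    rw [← val_ys G e C b₀ b₁ R hR hone hV hm hsm hSep C.out (f + ⟨f₀, hf₀⟩) c' hc', ht]
    rw [ys_add]
    have h2 : (fun v => (⟨f₀, hf₀⟩ : G).1 (e v)) = t := hft
    rw [h2, add_assoc, vec_self, add_zero]
  refine Nat.card_congr ((Equiv.addRight (⟨f₀, hf₀⟩ : G)).subtypeEquiv ?_)
  intro f
  rw [h1 f]
  rfl

end circ

end Pool.Agent.T9h47.SX
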