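import Mathlib
import Pool.Agent.T9h47.SX.App
import Pool.Agent.T9h47.SE.Brute

/-!
# Circuits for satisfiability and the group of negations
-/

set_option autoImplicit false
set_option linter.unusedSectionVars false

namespace Pool.Agent.T9h47.SX

open Finset
open Pool.Agent.T9h47.SC Pool.Agent.T9h47.SE

theorem sat_negVars {n k N : ℕ} {V : Type} [Fintype V] [DecidableEq V] (e : Fin N ↪ Fin n)
    (R : V → Finset (Fin N)) (hR : ∀ j, (R j).card ≤ k) (f : Fin n → ZMod 2) (c : V → ZMod 2) :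
    Satisfiable (negVars f (emb e '' sys R hR c : Set (Cl n k))) ↔ ∃ a, AA R a = c := by
  rw [negVars_sys, emb_sat, sat_sys]
  constructor
  · rintro ⟨a, ha⟩
    refine ⟨a + fun v => f (e v), ?_⟩
    rw [map_add, ha, add_assoc, vec_self, add_zero]
  · rintro ⟨a, rfl⟩
    exact ⟨a + fun v => f (e v), map_add _ _ _⟩

/-- **All circuits**: the advantage on a random satisfiable and a random unsatisfiable instance is
small unless the circuit has many views. -/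
theorem breaking_avg (k n : ℕ) (G : AddSubgroup (Fin n → ZMod 2)) (hk : 1 ≤ k)
    (hG : 2 ^ k ≤ Nat.card G) :
    ∃ (Ω : Type) (_ : Fintype Ω) (_ : Nonempty Ω) (φ₀ φ₁ : Ω → Set (Cl n k)),
      (∀ ω, Satisfiable (φ₀ ω) ∧ ¬ Satisfiable (φ₁ ω) ∧
        (φ₀ ω).ncard ≤ 2 ^ (k + 1) * Nat.log 2 (Nat.card G) ∧
        (φ₁ ω).ncard ≤ 2 ^ (k + 1) * Nat.log 2 (Nat.card G)) ∧
      ∀ (K : Type) (C : Circuit K (Cl n k)) (b₀ b₁ : K) (Acc : Set K),
        |(Nat.card {ω // C.val (inp b₀ b₁ (φ₀ ω)) C.out ∈ Acc} : ℝ) -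
          (Nat.card {ω // C.val (inp b₀ b₁ (φ₁ ω)) C.out ∈ Acc} : ℝ)| ≤
          ((views G C b₀ b₁ (2 ^ (k + 1) * Nat.log 2 (Nat.card G))).ncard : ℝ) *
            (2 ^ (k + 2) * (6 * (Nat.log 2 (Nat.card G) : ℝ) + 3) ^ 4) /
            ((Nat.card G : ℕ) : ℝ) ^ (1 - 29 / (10 * k) : ℝ) * Fintype.card Ω := by
  classical
  obtain ⟨H, hH1, hH2⟩ := info_set G
  obtain ⟨h, hh⟩ : ∃ h, h = H.card := ⟨_, rfl⟩
  have hlog : Nat.log 2 (Nat.card G) = h := by rw [hH1, ← hh]; exact Nat.log_pow (by norm_num) _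
  rw [hlog]
  rw [hH1, ← hh] at hG
  have hkh : k ≤ h := (Nat.pow_le_pow_iff_right (by norm_num)).1 hG
  obtain ⟨μ, hμ⟩ : ∃ μ, μ = h / k := ⟨_, rfl⟩
  have hμ0 : 0 < μ := by rw [hμ]; exact Nat.div_pos hkh (by omega)
  have hNh : μ * k ≤ h := by rw [hμ]; exact Nat.div_mul_le_self h k
  have hμh : μ ≤ h := (Nat.le_mul_of_pos_right μ (by omega)).trans hNh
  obtain ⟨e, he⟩ : ∃ e : Fin (μ * k) ↪ Fin n, ∀ v, e v ∈ H :=
    ⟨(Fin.castLEEmb hNh).trans (H.orderEmbOfFin hh.symm).toEmbedding,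
      fun v => H.orderEmbOfFin_mem hh.symm _⟩
  obtain ⟨m, hm⟩ : ∃ m, m = 2 ^ (k + 1) * h := ⟨_, rfl⟩
  have hm1 : 1 ≤ m := by
    rw [hm]
    exact Nat.mul_pos (by positivity) (by omega)
  rw [← hm]
  have hlift : ∀ t : Fin (μ * k) → ZMod 2, ∃ f ∈ G, (fun v => f (e v)) = t := by
    intro t
    obtain ⟨f, hf, hft⟩ := hH2 (extF e t)
    exact ⟨f, hf, funext fun v => by rw [hft _ (he v), extF_apply]⟩
  obtain ⟨blk, hblk⟩ := exists_blk μ k
  have hVμ : Fintype.card (Fin (2 * μ)) = 2 * μ := Fintype.card_fin _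
  have hV2 : 2 ≤ Fintype.card (Fin (2 * μ)) := by rw [hVμ]; omega
  obtain ⟨j₀⟩ : Nonempty (Fin (2 * μ)) := ⟨⟨0, by omega⟩⟩
  have hR : ∀ (π : Equiv.Perm (Fin (μ * k) × Bool)) j, (RG blk π j).card ≤ k :=
    fun π j => card_RG blk π j k (hblk j).le
  have hone : ∀ π : Equiv.Perm (Fin (μ * k) × Bool), tr (RG blk π) (fun _ => 1) = 0 :=
    fun π => tr_RG_one blk π
  have hsm : ∀ (π : Equiv.Perm (Fin (μ * k) × Bool)) (c : Fin (2 * μ) → ZMod 2),
      (emb e '' (sys (RG blk π) (hR π) c) : Set (Cl n k)).ncard ≤ m := by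
    intro π c
    rw [Set.ncard_image_of_injective _ (emb_inj e), hm]
    refine sys_card (RG blk π) (hR π) k _ (hR π) ?_ c
    rw [Fintype.card_fin]
    calc 2 * μ * 2 ^ k = 2 ^ (k + 1) * μ := by ring
      _ ≤ _ := Nat.mul_le_mul_left _ hμh
  have hGfin : Finite G := inferInstance
  let _ : Fintype G := Fintype.ofFinite G
  refine ⟨Equiv.Perm (Fin (μ * k) × Bool) × G, inferInstance, inferInstance,
    fun ω => negVars ω.2.1 (emb e '' sys (RG blk ω.1) (hR ω.1) 0),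
    fun ω => negVars ω.2.1 (emb e '' sys (RG blk ω.1) (hR ω.1) (cRG blk j₀ ω.1)),
    fun ω => ⟨?_, ?_, ?_, ?_⟩, ?_⟩
  · rw [sat_negVars]
    exact ⟨0, map_zero _⟩
  · rw [sat_negVars]
    exact cRG_unsat blk j₀ hV2 ω.1
  · rw [negVars_ncard]
    exact hsm _ _
  · rw [negVars_ncard]
    exact hsm _ _
  intro K C b₀ b₁ Acc
  let _ := C.fin
  -- the views as a finite set
  obtain ⟨F, hF⟩ : ∃ F : Finset ({φ : Set (Cl n k) // φ.ncard ≤ m} → K × (ℕ → Multiset K)),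
      F = univ.image (fun p : C.Gate × G => vw C b₀ b₁ p.1 ∘ sh p.2.1) := ⟨_, rfl⟩
  have hFv : views G C b₀ b₁ m = ↑F := by
    rw [views_eq, hF]
    ext L
    rw [coe_image, Set.mem_image]
    constructor
    · rintro ⟨g, f, hf, rfl⟩
      exact ⟨(g, ⟨f, hf⟩), mem_coe.2 (mem_univ _), rfl⟩
    · rintro ⟨p, _, rfl⟩
      exact ⟨p.1, p.2.1, p.2.2, rfl⟩
  have hFcl : ∀ L ∈ F, ∀ f ∈ G, L ∘ sh f ∈ F := by
    intro L hL f hf
    rw [hF, mem_image] at hL ⊢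
    obtain ⟨p, _, rfl⟩ := hL
    refine ⟨(p.1, p.2 + ⟨f, hf⟩), mem_univ _, ?_⟩
    show vw C b₀ b₁ p.1 ∘ sh (p.2.1 + f) = (vw C b₀ b₁ p.1 ∘ sh p.2.1) ∘ sh f
    rw [sh_add, Function.comp_assoc]
  rw [hFv, Set.ncard_coe_finset]
  obtain ⟨Γ, hΓ⟩ : ∃ Γ : Finset (Submodule (ZMod 2) (Fin (μ * k) → ZMod 2)),
      Γ = F.image (ZL G e) := ⟨_, rfl⟩
  have hsum : ((∑ Z : {Z // Z ∈ Γ}, Nat.card (perp Z.1) : ℕ) : ℝ) ≤ (F.card : ℝ) := by
    have h1 : (∑ Z : {Z // Z ∈ Γ}, Nat.card (perp Z.1)) = ∑ Z ∈ Γ, Nat.card (perp Z) :=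
      sum_coe_sort Γ (fun Z => Nat.card (perp Z))
    have h2 := sum_ZL G e hlift F hFcl
    rw [h1, hΓ]
    exact_mod_cast h2
  have hcount := count_bad blk hblk μ hμ0 hVμ (fun Z : {Z // Z ∈ Γ} => Z.1) (F.card : ℝ)
    (Nat.cast_nonneg _) hsum
  obtain ⟨B, hB⟩ : ∃ B : ℕ, B = Nat.card {π : Equiv.Perm (Fin (μ * k) × Bool) //
      ¬ ∀ Z : {Z // Z ∈ Γ}, Sep2 (RG blk π) (perp Z.1)} := ⟨_, rfl⟩
  rw [← hB] at hcount
  -- good graphs
  have hgood : ∀ π : Equiv.Perm (Fin (μ * k) × Bool),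
      (∀ Z : {Z // Z ∈ Γ}, Sep2 (RG blk π) (perp Z.1)) →
      Nat.card {f : G // C.val (ys G e b₀ b₁ (RG blk π) (hR π) f (cRG blk j₀ π)) C.out ∈ Acc} =
        Nat.card {f : G // C.val (ys G e b₀ b₁ (RG blk π) (hR π) f 0) C.out ∈ Acc} := by
    intro π hπ
    have hSep : ∀ g, Sep2 (RG blk π) (perp (ZL G e (vw C b₀ b₁ g :
        {φ : Set (Cl n k) // φ.ncard ≤ m} → _))) := by
      intro g
      refine hπ ⟨ZL G e (vw C b₀ b₁ g), ?_⟩
      rw [hΓ]
      refine mem_image_of_mem _ ?_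
      rw [hF, mem_image]
      refine ⟨(g, 0), mem_univ _, ?_⟩
      show vw C b₀ b₁ g ∘ sh (0 : Fin n → ZMod 2) = _
      rw [sh_zero, Function.comp_id]
    have hgd : ∃ c, Good (RG blk π) ⊤ c := by
      obtain ⟨c', hc'⟩ := exists_good2 _ (hone π) _ (hSep C.out)
      exact ⟨c', good_mono _ le_top hc'⟩
    exact card_ys G e C b₀ b₁ hlift (RG blk π) (hR π) (hone π) hV2 hm1 (hsm π) hSep Acc _
      (cRG_good blk j₀ π hgd)
  -- sums over the graphs
  have hsplit : ∀ P : Equiv.Perm (Fin (μ * k) × Bool) × G → Prop,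
      Nat.card {ω // P ω} = ∑ π, Nat.card {f : G // P (π, f)} := by
    intro P
    rw [Nat.card_congr (Equiv.subtypeProdEquivSigmaSubtype (fun π f => P (π, f))), Nat.card_sigma]
  obtain ⟨A0, hA0⟩ : ∃ A0 : Equiv.Perm (Fin (μ * k) × Bool) → ℕ, A0 = fun π =>
    Nat.card {f : G // C.val (ys G e b₀ b₁ (RG blk π) (hR π) f 0) C.out ∈ Acc} := ⟨_, rfl⟩
  obtain ⟨A1, hA1⟩ : ∃ A1 : Equiv.Perm (Fin (μ * k) × Bool) → ℕ, A1 = fun π =>
    Nat.card {f : G // C.val (ys G e b₀ b₁ (RG blk π) (hR π) f (cRG blk j₀ π)) C.out ∈ Acc} :=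
    ⟨_, rfl⟩
  have e0 : Nat.card {ω : Equiv.Perm (Fin (μ * k) × Bool) × G // C.val (inp b₀ b₁
      (negVars ω.2.1 (emb e '' sys (RG blk ω.1) (hR ω.1) 0))) C.out ∈ Acc} = ∑ π, A0 π := by
    rw [hsplit, hA0]
    rfl
  have e1 : Nat.card {ω : Equiv.Perm (Fin (μ * k) × Bool) × G // C.val (inp b₀ b₁
      (negVars ω.2.1 (emb e '' sys (RG blk ω.1) (hR ω.1) (cRG blk j₀ ω.1)))) C.out ∈ Acc} =
      ∑ π, A1 π := by
    rw [hsplit, hA1]
    rfl
  rw [e0, e1]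
  have hdiff : |((∑ π, A0 π : ℕ) : ℝ) - ((∑ π, A1 π : ℕ) : ℝ)| ≤ (B : ℝ) * Fintype.card G := by
    have h1 : ∀ π, |(A0 π : ℝ) - (A1 π : ℝ)| ≤
        if ¬ ∀ Z : {Z // Z ∈ Γ}, Sep2 (RG blk π) (perp Z.1) then (Fintype.card G : ℝ) else 0 := by
      intro π
      by_cases h : ∀ Z : {Z // Z ∈ Γ}, Sep2 (RG blk π) (perp Z.1)
      · rw [if_neg (not_not.2 h)]
        have h2 : A1 π = A0 π := by
          rw [hA0, hA1]
          exact hgood π h
        rw [h2, sub_self, abs_zero]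
      · rw [if_pos h]
        have h2 : ∀ P : G → Prop, (Nat.card {f : G // P f} : ℝ) ≤ Fintype.card G := by
          intro P
          rw [Nat.card_eq_fintype_card]
          exact_mod_cast Fintype.card_subtype_le P
        have h3 : (A0 π : ℝ) ≤ Fintype.card G := by rw [hA0]; exact h2 _
        have h4 : (A1 π : ℝ) ≤ Fintype.card G := by rw [hA1]; exact h2 _
        have h5 : (0 : ℝ) ≤ A0 π := Nat.cast_nonneg _
        have h6 : (0 : ℝ) ≤ A1 π := Nat.cast_nonneg _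
        rw [abs_le]
        constructor <;> linarith
    calc |((∑ π, A0 π : ℕ) : ℝ) - ((∑ π, A1 π : ℕ) : ℝ)| = |∑ π, ((A0 π : ℝ) - (A1 π : ℝ))| := by
          push_cast
          rw [sum_sub_distrib]
      _ ≤ ∑ π, |(A0 π : ℝ) - (A1 π : ℝ)| := abs_sum_le_sum_abs _ _
      _ ≤ ∑ π, if ¬ ∀ Z : {Z // Z ∈ Γ}, Sep2 (RG blk π) (perp Z.1) then
          (Fintype.card G : ℝ) else 0 := sum_le_sum fun π _ => h1 π
      _ = (B : ℝ) * Fintype.card G := by
          have h7 : B = (univ.filter (fun π : Equiv.Perm (Fin (μ * k) × Bool) =>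
              ¬ ∀ Z : {Z // Z ∈ Γ}, Sep2 (RG blk π) (perp Z.1))).card := by
            rw [hB, Nat.card_eq_fintype_card, Fintype.card_subtype]
          rw [← sum_filter, sum_const, nsmul_eq_mul, h7]
  have hrate := rate_num k h hk (F.card : ℝ) (((2 * (μ * k)).factorial : ℕ) : ℝ) (B : ℝ)
    (Nat.cast_nonneg _) (Nat.cast_nonneg _) (by
      rw [← hμ]
      exact hcount)
  have hΩ : (Fintype.card (Equiv.Perm (Fin (μ * k) × Bool) × G) : ℝ) =
      (((2 * (μ * k)).factorial : ℕ) : ℝ) * Fintype.card G := by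
    rw [Fintype.card_prod, Fintype.card_perm, Fintype.card_prod, Fintype.card_fin,
      Fintype.card_bool, mul_comm (μ * k) 2]
    push_cast
    rfl
  have h4 : ((Nat.card G : ℕ) : ℝ) ^ (1 - 29 / (10 * k) : ℝ) =
      (2 : ℝ) ^ ((1 - 29 / (10 * k) : ℝ) * h) := by
    rw [hH1, ← hh]
    push_cast
    rw [← Real.rpow_natCast, ← Real.rpow_mul (by norm_num), mul_comm]
  rw [hΩ, h4, ← mul_assoc]
  exact hdiff.trans (mul_le_mul_of_nonneg_right hrate (Nat.cast_nonneg _))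

/-- circuits deciding satisfiability have many views -/
theorem breaking_worst (k n : ℕ) (G : AddSubgroup (Fin n → ZMod 2)) (hk : 1 ≤ k)
    (hG : 2 ^ k ≤ Nat.card G) (K : Type) (C : Circuit K (Cl n k)) (b₀ b₁ : K) (Acc : Set K)
    (hD : DecidesSat C b₀ b₁ Acc (2 ^ (k + 1) * Nat.log 2 (Nat.card G))) :
    ((Nat.card G : ℕ) : ℝ) ^ (1 - 29 / (10 * k) : ℝ) ≤
      ((views G C b₀ b₁ (2 ^ (k + 1) * Nat.log 2 (Nat.card G))).ncard : ℝ) *
        (2 ^ (k + 2) * (6 * (Nat.log 2 (Nat.card G) : ℝ) + 3) ^ 4) := by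
  obtain ⟨Ω, _, _, φ₀, φ₁, h1, h2⟩ := breaking_avg k n G hk hG
  have h3 := h2 K C b₀ b₁ Acc
  have h4 : Nat.card {ω // C.val (inp b₀ b₁ (φ₀ ω)) C.out ∈ Acc} = Fintype.card Ω := by
    rw [← Nat.card_eq_fintype_card]
    refine Nat.card_congr (Equiv.subtypeUnivEquiv fun ω => ?_)
    obtain ⟨h5, h6, h7, h8⟩ := h1 ω
    exact (hD _ h7).2 h5
  have h5 : Nat.card {ω // C.val (inp b₀ b₁ (φ₁ ω)) C.out ∈ Acc} = 0 := by
    rw [Nat.card_eq_zero]
    left
    refine ⟨fun ω => ?_⟩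
    obtain ⟨h5, h6, h7, h8⟩ := h1 ω.1
    exact h6 ((hD _ h8).1 ω.2)
  rw [h4, h5, Nat.cast_zero, sub_zero] at h3
  have hΩ : (0 : ℝ) < Fintype.card Ω := by exact_mod_cast Fintype.card_pos
  rw [abs_of_pos hΩ] at h3
  have h6 : 1 ≤ ((views G C b₀ b₁ (2 ^ (k + 1) * Nat.log 2 (Nat.card G))).ncard : ℝ) *
      (2 ^ (k + 2) * (6 * (Nat.log 2 (Nat.card G) : ℝ) + 3) ^ 4) /
      ((Nat.card G : ℕ) : ℝ) ^ (1 - 29 / (10 * k) : ℝ) := by
    refine le_of_mul_le_mul_right ?_ hΩ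
    rw [one_mul]
    exact h3
  have hGpos : (0 : ℝ) < ((Nat.card G : ℕ) : ℝ) := by
    have : 0 < Nat.card G := lt_of_lt_of_le (by positivity) hG
    exact_mod_cast this
  rw [le_div_iff₀ (Real.rpow_pos_of_pos hGpos _), one_mul] at h6
  exact h6

/-- a symmetric circuit has at most as many views as gates -/
theorem views_symm {k n : ℕ} (G : AddSubgroup (Fin n → ZMod 2)) {K : Type}
    (C : Circuit K (Cl n k)) (b₀ b₁ : K) (m : ℕ) (hS : Symm C G) :
    (views G C b₀ b₁ m).ncard ≤ @Fintype.card C.Gate C.fin := by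
  classical
  let _ := C.fin
  have h1 : views G C b₀ b₁ m ⊆ Set.range
      (vw C b₀ b₁ : C.Gate → {φ : Set (Cl n k) // φ.ncard ≤ m} → _) := by
    rintro L ⟨g, f, hf, rfl⟩
    obtain ⟨α, hα⟩ := hS f hf
    refine ⟨α g, ?_⟩
    funext φ
    have hx : inp b₀ b₁ φ.1 ∘ ren 1 f = inp b₀ b₁ (negVars f φ.1) := by
      funext D
      show inp b₀ b₁ φ.1 (ren 1 f D) = inp b₀ b₁ (negVars f φ.1) D
      unfold inp
      by_cases h : ren 1 f D ∈ φ.1
      · rw [if_pos h, if_pos ((mem_negVars f φ.1 D).2 h)]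
      · rw [if_neg h, if_neg (fun h' => h ((mem_negVars f φ.1 D).1 h'))]
    have hval : ∀ g, C.val (inp b₀ b₁ φ.1) (α g) = C.val (inp b₀ b₁ (negVars f φ.1)) g := by
      intro g
      rw [← hx]
      exact hα.val _ (C.rank g + 1) g (Nat.lt_succ_self _)
    show view C (α g) (inp b₀ b₁ φ.1) = view C g (inp b₀ b₁ (negVars f φ.1))
    unfold view
    rw [hval]
    congr 1
    funext r
    have h1 : (C.kids (α g)).filter (fun p => p.1 = r) =
        ((C.kids g).filter (fun p => p.1 = r)).map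
          ⟨fun p => (p.1, α p.2), fun p q hpq => by
            have h2 := Prod.ext_iff.1 hpq
            exact Prod.ext h2.1 (α.injective h2.2)⟩ := by
      ext ⟨r', j⟩
      rw [mem_filter, mem_map]
      constructor
      · rintro ⟨hk, hr⟩
        refine ⟨(r', α⁻¹ j), ?_, ?_⟩
        · rw [mem_filter]
          refine ⟨?_, hr⟩
          rw [← hα.kids, papply_inv]
          exact hk
        · show (r', α (α⁻¹ j)) = (r', j)
          rw [papply_inv]
      · rintro ⟨⟨r'', j'⟩, hk', heq⟩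
        rw [mem_filter] at hk'
        have h2 := Prod.ext_iff.1 heq
        have h3 : r'' = r' := h2.1
        have h4 : α j' = j := h2.2
        subst h3
        subst h4
        exact ⟨(hα.kids g r'' j').2 hk'.1, hk'.2⟩
    rw [h1, Finset.map_val, Multiset.map_map]
    refine Multiset.map_congr rfl ?_
    rintro ⟨r', j⟩ _
    exact hval j
  refine (Set.ncard_le_ncard h1 (Set.finite_range _)).trans ?_
  rw [← Nat.card_coe_set_eq, ← Nat.card_eq_fintype_card]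
  exact Nat.card_le_card_of_surjective (Set.rangeFactorization _)
    Set.rangeFactorization_surjective

/-- a circuit has at most `|G|` times as many views as gates -/
theorem views_le {k n : ℕ} (G : AddSubgroup (Fin n → ZMod 2)) {K : Type}
    (C : Circuit K (Cl n k)) (b₀ b₁ : K) (m : ℕ) :
    (views G C b₀ b₁ m).ncard ≤ Nat.card G * @Fintype.card C.Gate C.fin := by
  classical
  let _ := C.fin
  have h1 : views G C b₀ b₁ m ⊆ Set.range (fun (p : G × C.Gate)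
      (φ : {φ : Set (Cl n k) // φ.ncard ≤ m}) => view C p.2 (inp b₀ b₁ (negVars p.1.1 φ.1))) := by
    rintro L ⟨g, f, hf, rfl⟩
    exact ⟨(⟨f, hf⟩, g), rfl⟩
  refine (Set.ncard_le_ncard h1 (Set.finite_range _)).trans ?_
  rw [← Nat.card_coe_set_eq, ← Nat.card_eq_fintype_card, ← Nat.card_prod]
  exact Nat.card_le_card_of_surjective (Set.rangeFactorization _)
    Set.rangeFactorization_surjective

end Pool.Agent.T9h47.SX
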